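import Mathlib

set_option autoImplicit false

namespace Pool.Agent.KRPoison

open Finset

/-- König's theorem for a bipartite relation between finite sets -/
theorem konig {V : Type} [DecidableEq V] (A B : Finset V) (r : V → V → Prop) :
    ∃ (M : Finset (V × V)) (A' B' : Finset V), A' ⊆ A ∧ B' ⊆ B ∧
      (∀ e ∈ M, e.1 ∈ A ∧ e.2 ∈ B ∧ r e.1 e.2) ∧
      (∀ e ∈ M, ∀ e' ∈ M, e ≠ e' → e.1 ≠ e'.1 ∧ e.2 ≠ e'.2) ∧
      M.card = A'.card + B'.card ∧
      (∀ x ∈ A, ∀ y ∈ B, r x y → x ∈ A' ∨ y ∈ B') := by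
  classical
  let N : Finset V → Finset V := fun S => B.filter (fun y => ∃ x ∈ S, r x y)
  obtain ⟨S0, hS0, hmax⟩ := Finset.exists_max_image A.powerset
    (fun S => (S.card : ℤ) - ((N S).card : ℤ)) ⟨∅, by simp⟩
  have hS0A : S0 ⊆ A := Finset.mem_powerset.1 hS0
  have h0 : 0 ≤ (S0.card : ℤ) - ((N S0).card : ℤ) := by
    have := hmax ∅ (by simp)
    simpa [N] using this
  obtain ⟨d, hd⟩ : ∃ d : ℕ, (S0.card : ℤ) - ((N S0).card : ℤ) = (d : ℤ) :=
    ⟨_, (Int.toNat_of_nonneg h0).symm⟩
  let t : {x // x ∈ A} → Finset (V ⊕ Fin d) := fun a => (B.filter (r a.1)).disjSum Finset.univ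
  have hall : ∀ s : Finset {x // x ∈ A}, s.card ≤ (s.biUnion t).card := by
    intro s
    rcases s.eq_empty_or_nonempty with rfl | ⟨a0, ha0⟩
    · simp
    have hsub : (N (s.map (Function.Embedding.subtype _))).disjSum
        (Finset.univ : Finset (Fin d)) ⊆ s.biUnion t := by
      intro z hz
      rcases z with y | i
      · rw [Finset.inl_mem_disjSum] at hz
        obtain ⟨hy, x, hx, hr⟩ := Finset.mem_filter.1 hz
        obtain ⟨a, ha, rfl⟩ := Finset.mem_map.1 hx
        refine Finset.mem_biUnion.2 ⟨a, ha, ?_⟩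
        exact Finset.inl_mem_disjSum.2 (Finset.mem_filter.2 ⟨hy, hr⟩)
      · exact Finset.mem_biUnion.2 ⟨a0, ha0, Finset.inr_mem_disjSum.2 (Finset.mem_univ _)⟩
    have h1 := Finset.card_le_card hsub
    rw [Finset.card_disjSum, Finset.card_univ, Fintype.card_fin] at h1
    have h2 := hmax (s.map (Function.Embedding.subtype _)) (by
      rw [Finset.mem_powerset]
      intro x hx
      obtain ⟨a, ha, rfl⟩ := Finset.mem_map.1 hx
      exact a.2)
    simp only [Finset.card_map] at h2
    omega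
  obtain ⟨f, hf, hft⟩ := (Finset.all_card_le_biUnion_card_iff_exists_injective t).1 hall
  let M : Finset (V × V) := (A ×ˢ B).filter (fun e => ∃ h : e.1 ∈ A, f ⟨e.1, h⟩ = Sum.inl e.2)
  have hM : ∀ e ∈ M, e.1 ∈ A ∧ e.2 ∈ B ∧ r e.1 e.2 := by
    intro e he
    obtain ⟨h1, h2, h3⟩ := Finset.mem_filter.1 he
    have h4 := hft ⟨e.1, h2⟩
    rw [h3] at h4
    have h5 := Finset.mem_filter.1 (Finset.inl_mem_disjSum.1 h4)
    exact ⟨h2, h5.1, h5.2⟩
  have hmatch : ∀ e ∈ M, ∀ e' ∈ M, e ≠ e' → e.1 ≠ e'.1 ∧ e.2 ≠ e'.2 := by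
    rintro ⟨a, b⟩ he ⟨a', b'⟩ he' hne
    obtain ⟨-, h2, h3⟩ := Finset.mem_filter.1 he
    obtain ⟨-, h2', h3'⟩ := Finset.mem_filter.1 he'
    simp only at h2 h3 h2' h3'
    constructor
    · intro h
      simp only at h
      subst h
      rw [h3] at h3'
      exact hne (by rw [Sum.inl.inj h3'])
    · intro h
      simp only at h
      subst h
      rw [← h3'] at h3
      have := congrArg Subtype.val (hf h3)
      simp only at this
      exact hne (by rw [this])
  -- cardinality
  have hcardM : A.card ≤ M.card + d := by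
    have e1 : A.card = (Finset.univ : Finset {x // x ∈ A}).card := by simp
    rw [e1, ← Finset.card_filter_add_card_filter_not (s := (Finset.univ : Finset {x // x ∈ A}))
      (fun a => (f a).isLeft = true)]
    refine Nat.add_le_add ?_ ?_
    · refine Finset.card_le_card_of_injOn
        (fun a => (a.1, Sum.elim id (fun _ => a.1) (f a))) ?_ ?_
      · intro a ha
        have ha' := (Finset.mem_filter.1 (Finset.mem_coe.1 ha)).2
        obtain ⟨y, hy⟩ := Sum.isLeft_iff.1 ha'
        have h4 := hft a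
        rw [hy] at h4
        have h5 := Finset.mem_filter.1 (Finset.inl_mem_disjSum.1 h4)
        refine Finset.mem_coe.2 (Finset.mem_filter.2 ⟨Finset.mem_product.2 ⟨a.2, ?_⟩, a.2, ?_⟩)
        · simpa [hy] using h5.1
        · simp [hy]
      · intro a _ a' _ h
        exact Subtype.ext (Prod.ext_iff.1 h).1
    · have e2 : d = ((Finset.univ : Finset (Fin d)).map
          (Function.Embedding.inr : Fin d ↪ V ⊕ Fin d)).card := by simp
      refine le_trans (Finset.card_le_card_of_injOn (t := (Finset.univ : Finset (Fin d)).map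
          (Function.Embedding.inr : Fin d ↪ V ⊕ Fin d)) f ?_ hf.injOn) e2.symm.le
      intro a ha
      have ha' := (Finset.mem_filter.1 (Finset.mem_coe.1 ha)).2
      rcases hfa : f a with y | i
      · rw [hfa] at ha'; simp at ha'
      · exact Finset.mem_coe.2 (Finset.mem_map.2 ⟨i, Finset.mem_univ _, rfl⟩)
  have hle : (A \ S0).card + (N S0).card ≤ M.card := by
    have := Finset.card_sdiff_add_card_eq_card hS0A
    omega
  obtain ⟨M', hM'M, hM'⟩ := Finset.exists_subset_card_eq hle
  refine ⟨M', A \ S0, N S0, Finset.sdiff_subset, Finset.filter_subset _ _,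
    fun e he => hM e (hM'M he), fun e he e' he' => hmatch e (hM'M he) e' (hM'M he'), hM', ?_⟩
  intro x hx y hy hr
  by_cases hxS : x ∈ S0
  · right
    exact Finset.mem_filter.2 ⟨hy, x, hxS, hr⟩
  · left
    exact Finset.mem_sdiff.2 ⟨hx, hxS⟩

open Classical in
/-- prove this one (`konig` may be used without proof).
Call a pair {x,y} heavy if d x + d y > c, otherwise light.
(1) If some x is in no light pair then there are ≥ n-1 heavy pairs: done. Otherwise d x ≤ c for all x.
(2) A = {x | c/2 < d x}, i = |A|, B = complement. `konig` with r x y = (d x + d y ≤ c) gives M of size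
z = a + b, a = |A'|, b = |B'|. Matched pairs have weight ≤ c, other A's ≤ c, other B's ≤ c/2:
1 + c ≤ z c + (i-z) c + (n-i-z) c/2 = c (n+i-z)/2. With s = i - z: 2/c ≤ n + s - 2; since c(n-2) < 2,
s ≥ 1. With j0 = ⌈1/c⌉: j0 - 1 < 1/c so 2 j0 + 1 ≤ n + s, i.e. 2(j0+1) ≤ n+s+1.
(3) pairs inside A are heavy (C(i,2) of them), and so are the pairs between A \ A' and B \ B'
((i-a)(n-i-b) of them): heavy ≥ C(i,2) + (i-a)(n-i-b), a + b = z, i-a ≥ s, and
(i-a)(n-i-b) ≥ min (s (n-i)) (i (n-i-z)).
(4) z = 0: heavy ≥ C(i,2)+i(n-i) ≥ n-1 (i ≥ 1). z ≥ 1: C(i,2)+s(n-i) ≥ s(n-(s+1)/2) ≥ n-1; and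
g(i) = C(i,2)+i(n-i-z) = i(n+s-1/2-3i/2) is concave in i ∈ [s+1, ⌊(n+s)/2⌋], with
g(s+1) = (s+1)(n-2-s/2) ≥ n-1 (s ≤ n-2, n ≥ 4) and at i = ⌊(n+s)/2⌋ it is
C(⌊(n+s+1)/2⌋,2) ≥ C(j0+1,2). -/
theorem kr_core (n : ℕ) (hn : 4 ≤ n) (d : Fin n → ℝ) (hd : ∀ i, 0 ≤ d i) (c : ℝ) (hc : 0 < c)
    (hs : ∑ i, d i = 1 + c) (hcn : c * ((n : ℝ) - 2) < 2) :
    min (n - 1) ((⌈1 / c⌉₊ + 1).choose 2) ≤
      (((univ : Finset (Fin n)).powersetCard 2).filter (fun p => c < ∑ i ∈ p, d i)).card := by
  have hmemH : ∀ x y : Fin n, x ≠ y → c < d x + d y → ({x, y} : Finset (Fin n)) ∈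
      (((univ : Finset (Fin n)).powersetCard 2).filter (fun p => c < ∑ i ∈ p, d i)) := by
    intro x y hxy h
    rw [mem_filter, mem_powersetCard]
    refine ⟨⟨subset_univ _, card_pair hxy⟩, ?_⟩
    rw [sum_pair hxy]
    exact h
  generalize (((univ : Finset (Fin n)).powersetCard 2).filter (fun p => c < ∑ i ∈ p, d i)) = H at hmemH ⊢
  by_cases h1 : ∃ x, ∀ y, y ≠ x → c < d x + d y
  · obtain ⟨x, hx⟩ := h1
    refine (min_le_left _ _).trans ?_
    have hinj : Set.InjOn (fun y : Fin n => ({x, y} : Finset (Fin n)))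
        ((univ.erase x : Finset (Fin n)) : Set (Fin n)) := by
      intro y hy y' hy' h
      have hy1 : y ≠ x := ne_of_mem_erase (mem_coe.1 hy)
      have h2 : y ∈ ({x, y'} : Finset (Fin n)) := by
        have h3 : y ∈ ({x, y} : Finset (Fin n)) := by simp
        have h4 : ({x, y} : Finset (Fin n)) = {x, y'} := h
        rw [h4] at h3
        exact h3
      rw [mem_insert, mem_singleton] at h2
      rcases h2 with h2 | h2
      · exact absurd h2 hy1
      · exact h2
    have hcard : ((univ.erase x : Finset (Fin n)).image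
        (fun y => ({x, y} : Finset (Fin n)))).card = n - 1 := by
      rw [card_image_of_injOn hinj, card_erase_of_mem (mem_univ x), card_univ, Fintype.card_fin]
    rw [← hcard]
    apply card_le_card
    intro p hp
    obtain ⟨y, hy, rfl⟩ := mem_image.1 hp
    exact hmemH x y (Ne.symm (ne_of_mem_erase hy)) (hx y (ne_of_mem_erase hy))
  push Not at h1
  have hle : ∀ x, d x ≤ c := by
    intro x
    obtain ⟨y, _, hy⟩ := h1 x
    linarith [hd y]
  obtain ⟨A, hA⟩ : ∃ A : Finset (Fin n), A = univ.filter (fun x => c / 2 < d x) := ⟨_, rfl⟩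
  have memA : ∀ x, x ∈ A ↔ c / 2 < d x := by
    intro x
    rw [hA, mem_filter]
    simp
  obtain ⟨M, A', B', hA', hB', hM, hMinj, hMc, hcov⟩ := konig A Aᶜ (fun x y => d x + d y ≤ c)
  have inj1 : Set.InjOn Prod.fst (M : Set (Fin n × Fin n)) := by
    intro e he e' he' h
    by_contra hne
    exact (hMinj e he e' he' hne).1 h
  have inj2 : Set.InjOn Prod.snd (M : Set (Fin n × Fin n)) := by
    intro e he e' he' h
    by_contra hne
    exact (hMinj e he e' he' hne).2 h
  have c1 : (M.image Prod.fst).card = M.card := card_image_of_injOn inj1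
  have c2 : (M.image Prod.snd).card = M.card := card_image_of_injOn inj2
  have s1 : M.image Prod.fst ⊆ A := by
    intro x hx
    obtain ⟨e, he, rfl⟩ := mem_image.1 hx
    exact (hM e he).1
  have s2 : M.image Prod.snd ⊆ Aᶜ := by
    intro x hx
    obtain ⟨e, he, rfl⟩ := mem_image.1 hx
    exact (hM e he).2.1
  have hz1 : M.card ≤ A.card := c1 ▸ card_le_card s1
  have hz2 : M.card ≤ Aᶜ.card := c2 ▸ card_le_card s2
  have hAc : A.card + Aᶜ.card = n := by
    rw [card_add_card_compl, Fintype.card_fin]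
  have sumM : ∑ x ∈ M.image Prod.fst, d x + ∑ x ∈ M.image Prod.snd, d x ≤ (M.card : ℝ) * c := by
    rw [sum_image inj1, sum_image inj2, ← sum_add_distrib]
    calc ∑ e ∈ M, (d e.1 + d e.2) ≤ ∑ e ∈ M, c := sum_le_sum fun e he => (hM e he).2.2
      _ = (M.card : ℝ) * c := by rw [sum_const, nsmul_eq_mul]
  have sumA : ∑ x ∈ A \ M.image Prod.fst, d x ≤ ((A.card:ℝ) - M.card) * c := by
    calc ∑ x ∈ A \ M.image Prod.fst, d x ≤ ∑ x ∈ A \ M.image Prod.fst, c :=
          sum_le_sum fun x _ => hle x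
      _ = ((A.card:ℝ) - M.card) * c := by
          rw [sum_const, nsmul_eq_mul, card_sdiff_of_subset s1, c1, Nat.cast_sub hz1]
  have sumB : ∑ x ∈ Aᶜ \ M.image Prod.snd, d x ≤ ((Aᶜ.card:ℝ) - M.card) * (c / 2) := by
    calc ∑ x ∈ Aᶜ \ M.image Prod.snd, d x ≤ ∑ x ∈ Aᶜ \ M.image Prod.snd, c / 2 := by
          refine sum_le_sum fun x hx => ?_
          have h2 : x ∉ A := mem_compl.1 (mem_sdiff.1 hx).1
          rw [memA] at h2
          exact not_lt.1 h2
      _ = ((Aᶜ.card:ℝ) - M.card) * (c / 2) := by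
          rw [sum_const, nsmul_eq_mul, card_sdiff_of_subset s2, c2, Nat.cast_sub hz2]
  have tA : ∑ x ∈ A \ M.image Prod.fst, d x + ∑ x ∈ M.image Prod.fst, d x = ∑ x ∈ A, d x :=
    sum_sdiff s1
  have tB : ∑ x ∈ Aᶜ \ M.image Prod.snd, d x + ∑ x ∈ M.image Prod.snd, d x = ∑ x ∈ Aᶜ, d x :=
    sum_sdiff s2
  have tot : ∑ x ∈ A, d x + ∑ x ∈ Aᶜ, d x = 1 + c := by
    rw [sum_add_sum_compl, hs]
  have hAcR : (A.card : ℝ) + (Aᶜ.card : ℝ) = n := by exact_mod_cast hAc
  -- main inequality
  have hmain : 2 * (1 + c) ≤ c * ((n : ℝ) + ((A.card : ℝ) - M.card)) := by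
    have e1 : (Aᶜ.card : ℝ) = n - A.card := by linarith
    rw [e1] at sumB
    nlinarith [sumM, sumA, sumB, tA, tB, tot]
  have hs1 : M.card < A.card := by
    rcases Nat.lt_or_ge M.card A.card with h | h
    · exact h
    · exfalso
      have h2 : M.card = A.card := le_antisymm hz1 h
      rw [h2] at hmain
      nlinarith [hmain, hcn]
  have hj : 2 * ⌈1 / c⌉₊ < n + (A.card - M.card) := by
    have hj1 : ((⌈1 / c⌉₊ : ℕ) : ℝ) < 1 / c + 1 := Nat.ceil_lt_add_one (by positivity)
    have hj2 : c * (⌈1 / c⌉₊ : ℝ) < 1 + c := by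
      have := mul_lt_mul_of_pos_left hj1 hc
      have e2 : c * (1 / c + 1) = 1 + c := by field_simp
      rw [e2] at this
      exact this
    have hj3 : c * (2 * (⌈1 / c⌉₊ : ℝ)) < c * ((n : ℝ) + ((A.card : ℝ) - M.card)) := by
      linarith
    have hj4 := lt_of_mul_lt_mul_left hj3 hc.le
    have hj5 : ((2 * ⌈1 / c⌉₊ : ℕ) : ℝ) < ((n + (A.card - M.card) : ℕ) : ℝ) := by
      push_cast [Nat.cast_sub hz1]
      exact hj4
    exact_mod_cast hj5
  -- counting heavy pairs
  have hcount : A.card.choose 2 + (A.card - A'.card) * (Aᶜ.card - B'.card) ≤ H.card := by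
    have d1 : A.powersetCard 2 ⊆ H := by
      intro p hp
      rw [mem_powersetCard] at hp
      obtain ⟨hp1, hp2⟩ := hp
      obtain ⟨x, y, hxy, rfl⟩ := card_eq_two.1 hp2
      refine hmemH x y hxy ?_
      have hx : x ∈ A := hp1 (by simp)
      have hy : y ∈ A := hp1 (by simp)
      rw [memA] at hx hy
      linarith
    have d2 : ((A \ A') ×ˢ (Aᶜ \ B')).image (fun e : Fin n × Fin n =>
        ({e.1, e.2} : Finset (Fin n))) ⊆ H := by
      intro p hp
      obtain ⟨e, he, rfl⟩ := mem_image.1 hp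
      rw [mem_product, mem_sdiff, mem_sdiff, mem_compl] at he
      obtain ⟨⟨e1, e2⟩, e3, e4⟩ := he
      refine hmemH e.1 e.2 (fun h => e3 (h ▸ e1)) ?_
      by_contra hlt
      rcases hcov e.1 e1 e.2 (mem_compl.2 e3) (not_lt.1 hlt) with h | h
      · exact e2 h
      · exact e4 h
    have dinj : Set.InjOn (fun e : Fin n × Fin n => ({e.1, e.2} : Finset (Fin n)))
        (((A \ A') ×ˢ (Aᶜ \ B') : Finset (Fin n × Fin n)) : Set (Fin n × Fin n)) := by
      intro e he e' he' h
      have h0 : ({e.1, e.2} : Finset (Fin n)) = {e'.1, e'.2} := h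
      rw [mem_coe, mem_product, mem_sdiff, mem_sdiff, mem_compl] at he he'
      have m1 : e.1 ∈ ({e'.1, e'.2} : Finset (Fin n)) := by rw [← h0]; simp
      have m2 : e.2 ∈ ({e'.1, e'.2} : Finset (Fin n)) := by rw [← h0]; simp
      rw [mem_insert, mem_singleton] at m1 m2
      have k1 : e.1 = e'.1 := by
        rcases m1 with m1 | m1
        · exact m1
        · exact absurd (m1 ▸ he.1.1) he'.2.1
      have k2 : e.2 = e'.2 := by
        rcases m2 with m2 | m2
        · exact absurd (m2 ▸ he'.1.1) he.2.1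
        · exact m2
      exact Prod.ext k1 k2
    have ddisj : Disjoint (A.powersetCard 2) (((A \ A') ×ˢ (Aᶜ \ B')).image
        (fun e : Fin n × Fin n => ({e.1, e.2} : Finset (Fin n)))) := by
      rw [disjoint_left]
      intro p hp hp'
      obtain ⟨e, he, rfl⟩ := mem_image.1 hp'
      rw [mem_product, mem_sdiff, mem_sdiff, mem_compl] at he
      rw [mem_powersetCard] at hp
      exact he.2.1 (hp.1 (by simp))
    calc A.card.choose 2 + (A.card - A'.card) * (Aᶜ.card - B'.card)
        = (A.powersetCard 2).card + (((A \ A') ×ˢ (Aᶜ \ B')).image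
          (fun e : Fin n × Fin n => ({e.1, e.2} : Finset (Fin n)))).card := by
          rw [card_powersetCard, card_image_of_injOn dinj, card_product,
            card_sdiff_of_subset hA', card_sdiff_of_subset hB']
      _ = (A.powersetCard 2 ∪ ((A \ A') ×ˢ (Aᶜ \ B')).image
          (fun e : Fin n × Fin n => ({e.1, e.2} : Finset (Fin n)))).card :=
          (card_union_of_disjoint ddisj).symm
      _ ≤ H.card := card_le_card (union_subset d1 d2)
  have hA'c : A'.card ≤ A.card := card_le_card hA'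
  have hB'c : B'.card ≤ Aᶜ.card := card_le_card hB'
  refine le_trans ?_ hcount
  rcases Nat.eq_or_lt_of_le hz2 with hw | hw
  · -- w = 0
    refine (min_le_right _ _).trans ?_
    refine le_trans (Nat.choose_le_choose 2 ?_) (Nat.le_add_right _ _)
    omega
  · refine (min_le_left _ _).trans ?_
    obtain ⟨x, hx⟩ : ∃ x, x = A.card - A'.card := ⟨_, rfl⟩
    obtain ⟨y, hy⟩ : ∃ y, y = Aᶜ.card - B'.card := ⟨_, rfl⟩
    rw [← hx, ← hy]
    have hx1 : 1 ≤ x := by omega
    have hy1 : 1 ≤ y := by omega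
    have hxy : x + y ≤ x * y + 1 := by nlinarith [Nat.mul_le_mul hx1 hy1]
    have hch : M.card ≤ A.card.choose 2 := by
      have h2 : (M.card + 1).choose 2 ≤ A.card.choose 2 := Nat.choose_le_choose 2 hs1
      have h3 : M.card ≤ (M.card + 1).choose 2 := by
        rw [Nat.choose_succ_succ' M.card 1, Nat.choose_one_right]
        omega
      omega
    omega

open Classical in
theorem kr_compl (k : ℕ) (z : Fin (k+2) → ℝ) :
    Set.ncard {V : Finset (Fin (k + 2)) | V.card = k ∧ (1 : ℝ) ≤ ∑ i ∈ V, z i} +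
    (((univ : Finset (Fin (k+2))).powersetCard 2).filter
      (fun p => ¬ (1:ℝ) ≤ ∑ i ∈ pᶜ, z i)).card = (k+2).choose 2 := by
  have h1 : {V : Finset (Fin (k + 2)) | V.card = k ∧ (1 : ℝ) ≤ ∑ i ∈ V, z i} =
      ↑((((univ : Finset (Fin (k+2))).powersetCard 2).filter
        (fun p => (1:ℝ) ≤ ∑ i ∈ pᶜ, z i)).image (fun p => pᶜ)) := by
    ext V
    simp only [Set.mem_setOf_eq, coe_image, Set.mem_image, mem_coe, mem_filter, mem_powersetCard,
      subset_univ, true_and]
    constructor
    · rintro ⟨h, h'⟩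
      refine ⟨Vᶜ, ⟨?_, by rwa [compl_compl]⟩, compl_compl V⟩
      rw [card_compl, Fintype.card_fin, h]; omega
    · rintro ⟨p, ⟨h, h'⟩, rfl⟩
      refine ⟨?_, h'⟩
      rw [card_compl, Fintype.card_fin, h]; omega
  rw [h1, Set.ncard_coe_finset, card_image_of_injective _ compl_injective,
    card_filter_add_card_filter_not, card_powersetCard]
  simp

open Classical in
theorem kr_le (k : ℕ) (x y : Fin (k+2) → ℝ)
    (h : (((univ : Finset (Fin (k+2))).powersetCard 2).filter
      (fun p => ¬ (1:ℝ) ≤ ∑ i ∈ pᶜ, y i)).card ≤ (((univ : Finset (Fin (k+2))).powersetCard 2).filter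
      (fun p => ¬ (1:ℝ) ≤ ∑ i ∈ pᶜ, x i)).card) :
    Set.ncard {V : Finset (Fin (k + 2)) | V.card = k ∧ (1 : ℝ) ≤ ∑ i ∈ V, x i} ≤
    Set.ncard {V : Finset (Fin (k + 2)) | V.card = k ∧ (1 : ℝ) ≤ ∑ i ∈ V, y i} := by
  have h1 := kr_compl k x
  have h2 := kr_compl k y
  omega

theorem kr_two (k : ℕ) (hk : 1 ≤ k) (h : ℝ) (hh : 1 < h) (x : Fin (k + 2) → ℝ)
    (hx : ∀ i, 0 ≤ x i) (hs : ∑ i, x i = h) :
    ∃ j : ℕ, 0 < j ∧
      Set.ncard {V : Finset (Fin (k + 2)) | V.card = k ∧ (1 : ℝ) ≤ ∑ i ∈ V, x i} ≤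
      Set.ncard {V : Finset (Fin (k + 2)) | V.card = k ∧ (1 : ℝ) ≤ ∑ i ∈ V,
        (if i.val < min (k + 2) ⌊h * (j : ℝ)⌋₊ then (1 : ℝ) / (j : ℝ) else 0)} := by
  classical
  rcases Nat.lt_or_ge k 2 with hk2 | hk2
  · -- k = 1
    obtain rfl : k = 1 := by omega
    refine ⟨1, one_pos, ?_⟩
    -- count
    have hL : {V : Finset (Fin (1 + 2)) | V.card = 1 ∧ (1 : ℝ) ≤ ∑ i ∈ V, x i} =
        ↑(((univ : Finset (Fin (1+2))).filter (fun i => 1 ≤ x i)).image (fun i => ({i} : Finset (Fin (1+2))))) := by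
      ext V
      simp only [Set.mem_setOf_eq, coe_image, Set.mem_image, mem_coe, mem_filter, mem_univ, true_and]
      constructor
      · rintro ⟨h1, h2⟩
        obtain ⟨a, rfl⟩ := card_eq_one.1 h1
        exact ⟨a, by simpa using h2, rfl⟩
      · rintro ⟨a, h2, rfl⟩
        exact ⟨by simp, by simpa using h2⟩
    set m := min (1 + 2) ⌊h * ((1:ℕ) : ℝ)⌋₊ with hm
    have hR : (((univ : Finset (Fin (1+2))).filter (fun i => i.val < m)).image (fun i => ({i} : Finset (Fin (1+2))))) ⊆
        (({V : Finset (Fin (1 + 2)) | V.card = 1 ∧ (1 : ℝ) ≤ ∑ i ∈ V, (if i.val < m then (1 : ℝ) / ((1:ℕ) : ℝ) else 0)} : Set (Finset (Fin (1+2)))).toFinset) := by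
      intro V hV
      simp only [mem_image, mem_filter, mem_univ, true_and] at hV
      obtain ⟨a, h2, rfl⟩ := hV
      rw [Set.mem_toFinset]
      refine ⟨card_singleton a, ?_⟩
      rw [sum_singleton, if_pos h2]
      simp
    rw [hL, Set.ncard_coe_finset, card_image_of_injective _ singleton_injective, Set.ncard_eq_toFinset_card']
    refine le_trans ?_ (card_le_card hR)
    rw [card_image_of_injective _ singleton_injective]
    have hcm : ((univ : Finset (Fin (1+2))).filter (fun i => i.val < m)).card = m := by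
      have hm3 : m ≤ 3 := by rw [hm]; omega
      rw [Fin.card_filter_val_lt]
      omega
    rw [hcm]
    refine le_min ?_ ?_
    · refine (card_filter_le _ _).trans ?_
      simp
    · apply Nat.le_floor
      have h3 : ((((univ : Finset (Fin (1+2))).filter (fun i => 1 ≤ x i)).card : ℕ) : ℝ) ≤ ∑ i ∈ (univ : Finset (Fin (1+2))).filter (fun i => 1 ≤ x i), x i := by
        rw [card_eq_sum_ones]
        push_cast
        exact sum_le_sum (fun i hi => (mem_filter.1 hi).2)
      have h4 : ∑ i ∈ (univ : Finset (Fin (1+2))).filter (fun i => 1 ≤ x i), x i ≤ ∑ i, x i :=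
        sum_le_sum_of_subset_of_nonneg (filter_subset _ _) (fun i _ _ => hx i)
      rw [hs] at h4
      push_cast
      linarith
  · -- k ≥ 2
    obtain ⟨c, hc⟩ : ∃ c, c = h - 1 := ⟨_, rfl⟩
    have hc0 : 0 < c := by rw [hc]; linarith
    have hn : ((k + 2 : ℕ) : ℝ) - 2 = k := by push_cast; ring
    have hheavy : ((univ : Finset (Fin (k+2))).powersetCard 2).filter
        (fun p => ¬ (1:ℝ) ≤ ∑ i ∈ pᶜ, x i) = ((univ : Finset (Fin (k+2))).powersetCard 2).filter
        (fun p => c < ∑ i ∈ p, x i) := by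
      apply filter_congr
      intro p _
      have h1 : ∑ i ∈ p, x i + ∑ i ∈ pᶜ, x i = h := by rw [sum_add_sum_compl, hs]
      rw [not_le, hc]
      constructor <;> intro h2 <;> linarith
    have hycount : ∀ (j : ℕ) (m : ℕ) (V : Finset (Fin (k+2))), 0 < j → j ≤ (V.filter (fun i => i.val < m)).card →
        (1:ℝ) ≤ ∑ i ∈ V, (if i.val < m then (1 : ℝ) / (j : ℝ) else 0) := by
      intro j m V hj h1
      rw [← sum_filter, sum_const, nsmul_eq_mul]
      have hj' : (0:ℝ) < j := by exact_mod_cast hj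
      rw [mul_one_div, le_div_iff₀ hj', one_mul]
      exact_mod_cast h1
    by_cases hA : c * (((k + 2 : ℕ) : ℝ) - 2) < 2
    · have hcore := kr_core (k+2) (by omega) x hx c hc0 (by rw [hs, hc]; ring) hA
      rw [← hheavy] at hcore
      rcases le_total (k + 2 - 1) ((⌈1 / c⌉₊ + 1).choose 2) with hB | hB
      · -- j = 1
        rw [min_eq_left hB] at hcore
        refine ⟨1, one_pos, kr_le k x _ (le_trans ?_ hcore)⟩
        have hfl : 1 ≤ ⌊h * ((1:ℕ):ℝ)⌋₊ := by
          apply Nat.le_floor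
          push_cast
          linarith
        have hsub : (((univ : Finset (Fin (k+2))).powersetCard 2).filter
            (fun p => ¬ (1:ℝ) ≤ ∑ i ∈ pᶜ, (if i.val < min (k + 2) ⌊h * ((1:ℕ) : ℝ)⌋₊ then (1 : ℝ) / ((1:ℕ) : ℝ) else 0))) ⊆
            (((univ : Finset (Fin (k+2))).erase 0).powersetCard 1).image (fun p => insert 0 p) := by
          intro p hp
          rw [mem_filter, mem_powersetCard] at hp
          obtain ⟨⟨_, hp2⟩, hp3⟩ := hp
          have h0 : (0 : Fin (k+2)) ∈ p := by
            by_contra h0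
            apply hp3
            apply hycount 1 _ _ one_pos
            rw [Nat.one_le_iff_ne_zero, Ne, card_eq_zero, ← Ne, ← nonempty_iff_ne_empty]
            refine ⟨0, mem_filter.2 ⟨mem_compl.2 h0, ?_⟩⟩
            show (0:ℕ) < _
            omega
          rw [mem_image]
          refine ⟨p.erase 0, ?_, insert_erase h0⟩
          rw [mem_powersetCard]
          refine ⟨erase_subset_erase _ (subset_univ _), ?_⟩
          rw [card_erase_of_mem h0, hp2]
        refine (card_le_card hsub).trans (card_image_le.trans ?_)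
        rw [card_powersetCard, card_erase_of_mem (mem_univ _)]
        simp
      · rw [min_eq_right hB] at hcore
        set j0 := ⌈1 / c⌉₊ with hj0
        have hj0pos : 0 < j0 := by
          rw [hj0]; exact Nat.ceil_pos.2 (by positivity)
        have hj0c : 1 ≤ (j0:ℝ) * c := by
          have h1 : 1 / c ≤ (j0:ℝ) := Nat.le_ceil _
          rw [div_le_iff₀ hc0] at h1
          exact h1
        have hj0n : j0 + 1 ≤ k + 2 := by
          by_contra hcon
          push Not at hcon
          have h1 : (k+3).choose 2 ≤ (j0+1).choose 2 := Nat.choose_le_choose 2 (by omega)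
          have h2 : (k+3).choose 2 = (k+2) + (k+2).choose 2 := by
            rw [show k + 3 = (k+2) + 1 by ring, Nat.choose_succ_succ' (k+2) 1, Nat.choose_one_right]
          omega
        have hfl : j0 + 1 ≤ ⌊h * (j0:ℝ)⌋₊ := by
          apply Nat.le_floor
          push_cast
          have : h = 1 + c := by rw [hc]; ring
          rw [this]
          nlinarith
        refine ⟨j0, hj0pos, kr_le k x _ (le_trans ?_ hcore)⟩
        set m := min (k + 2) ⌊h * (j0 : ℝ)⌋₊ with hm
        have hmj : j0 + 1 ≤ m := by rw [hm]; exact le_min hj0n hfl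
        have hmn : m ≤ k + 2 := by rw [hm]; exact min_le_left _ _
        have hsub : (((univ : Finset (Fin (k+2))).powersetCard 2).filter
            (fun p => ¬ (1:ℝ) ≤ ∑ i ∈ pᶜ, (if i.val < m then (1 : ℝ) / (j0 : ℝ) else 0))) ⊆
            ((univ : Finset (Fin (k+2))).filter (fun i => i.val < j0 + 1)).powersetCard 2 := by
          intro p hp
          rw [mem_filter, mem_powersetCard] at hp
          obtain ⟨⟨_, hp2⟩, hp3⟩ := hp
          rw [mem_powersetCard]
          refine ⟨?_, hp2⟩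
          by_contra hcon
          apply hp3
          apply hycount j0 _ _ hj0pos
          have h1 : (univ.filter (fun i : Fin (k+2) => i.val < m)).card = m := by
            rw [Fin.card_filter_val_lt]; omega
          have h2 : (univ.filter (fun i : Fin (k+2) => i.val < m)) =
              (p.filter (fun i => i.val < m)) ∪ (pᶜ.filter (fun i => i.val < m)) := by
            rw [← filter_union, union_compl]
          have h3 : m ≤ (p.filter (fun i => i.val < m)).card + (pᶜ.filter (fun i => i.val < m)).card := by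
            have h8 := card_union_le (p.filter (fun i => i.val < m)) (pᶜ.filter (fun i => i.val < m))
            rw [← h2, h1] at h8
            exact h8
          have h4 : (p.filter (fun i => i.val < m)).card ≤ 2 := (card_filter_le _ _).trans hp2.le
          by_cases h5 : j0 + 2 ≤ m
          · omega
          · have hmeq : m = j0 + 1 := by omega
            have h6 : (p.filter (fun i => i.val < m)).card ≠ 2 := by
              intro h6
              apply hcon
              have h7 : p.filter (fun i => i.val < m) = p :=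
                eq_of_subset_of_card_le (filter_subset _ _) (by rw [h6, hp2])
              intro i hi
              rw [← h7, hmeq] at hi
              exact mem_filter.2 ⟨mem_univ _, (mem_filter.1 hi).2⟩
            omega
        refine (card_le_card hsub).trans ?_
        rw [card_powersetCard]
        apply Nat.choose_le_choose
        rw [Fin.card_filter_val_lt]
        omega
    · push Not at hA
      rw [hn] at hA
      refine ⟨k, by omega, kr_le k x _ ?_⟩
      have hfl : k + 2 ≤ ⌊h * (k:ℝ)⌋₊ := by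
        apply Nat.le_floor
        push_cast
        have : h = 1 + c := by rw [hc]; ring
        rw [this]
        linarith
      rw [min_eq_left hfl]
      have : (((univ : Finset (Fin (k+2))).powersetCard 2).filter
          (fun p => ¬ (1:ℝ) ≤ ∑ i ∈ pᶜ, (if i.val < k + 2 then (1 : ℝ) / (k : ℝ) else 0))) = ∅ := by
        apply filter_eq_empty_iff.2
        intro p hp
        rw [mem_powersetCard] at hp
        rw [not_not]
        apply hycount k _ _ (by omega)
        rw [filter_true_of_mem (fun i _ => i.isLt), card_compl, Fintype.card_fin, hp.2]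
        omega
      rw [this]
      simp

/-- n = k: the only k-set is everything; j = 1 makes it lethal (⌊h⌋ ≥ 1 elements get dose 1). -/
theorem kr_zero (k : ℕ) (hk : 1 ≤ k) (h : ℝ) (hh : 1 < h) (x : Fin k → ℝ)
    (hx : ∀ i, 0 ≤ x i) (hs : ∑ i, x i = h) :
    ∃ j : ℕ, 0 < j ∧
      Set.ncard {V : Finset (Fin k) | V.card = k ∧ (1 : ℝ) ≤ ∑ i ∈ V, x i} ≤
      Set.ncard {V : Finset (Fin k) | V.card = k ∧ (1 : ℝ) ≤ ∑ i ∈ V,
        (if i.val < min k ⌊h * (j : ℝ)⌋₊ then (1 : ℝ) / (j : ℝ) else 0)} := by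
  refine ⟨1, one_pos, ?_⟩
  refine Set.ncard_le_ncard ?_ (Set.toFinite _)
  rintro V ⟨hV, -⟩
  refine ⟨hV, ?_⟩
  have hVu : V = Finset.univ := by
    rw [← Finset.card_eq_iff_eq_univ]
    simpa using hV
  have hfl : 1 ≤ ⌊h * ((1 : ℕ) : ℝ)⌋₊ := by
    rw [Nat.one_le_floor_iff]
    push_cast
    linarith
  have hk0 : 0 < k := hk
  have h0 : (⟨0, hk0⟩ : Fin k) ∈ V := hVu ▸ Finset.mem_univ _
  have hnn : ∀ i ∈ V, (0 : ℝ) ≤ (if i.val < min k ⌊h * ((1 : ℕ) : ℝ)⌋₊ then (1 : ℝ) / ((1 : ℕ) : ℝ) else 0) := by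
    intro i _
    split_ifs
    · norm_num
    · exact le_refl _
  refine le_trans ?_ (Finset.single_le_sum hnn h0)
  rw [if_pos]
  · norm_num
  · show 0 < min k _
    exact lt_min (by omega) (by omega)

/-- n = k + 1: k-sets are the complements of single elements a, lethal iff h - x a ≥ 1.  If h*k ≥ k+1
take j = k (all doses 1/k on all k+1 elements, every k-set is lethal).  Otherwise not all k-sets are
lethal (sum over a of (h - x a) = k h < k+1), so at most k of them are, and j = 1 gives at least k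
lethal sets (all k-sets containing element 0). -/
theorem kr_one (k : ℕ) (hk : 1 ≤ k) (h : ℝ) (hh : 1 < h) (x : Fin (k + 1) → ℝ)
    (hx : ∀ i, 0 ≤ x i) (hs : ∑ i, x i = h) :
    ∃ j : ℕ, 0 < j ∧
      Set.ncard {V : Finset (Fin (k + 1)) | V.card = k ∧ (1 : ℝ) ≤ ∑ i ∈ V, x i} ≤
      Set.ncard {V : Finset (Fin (k + 1)) | V.card = k ∧ (1 : ℝ) ≤ ∑ i ∈ V,
        (if i.val < min (k + 1) ⌊h * (j : ℝ)⌋₊ then (1 : ℝ) / (j : ℝ) else 0)} := by
  classical
  have hkr : (0 : ℝ) < k := by exact_mod_cast hk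
  by_cases hc : (k : ℝ) + 1 ≤ h * k
  · refine ⟨k, by omega, ?_⟩
    refine Set.ncard_le_ncard ?_ (Set.toFinite _)
    rintro V ⟨hV, -⟩
    refine ⟨hV, ?_⟩
    have hfl : k + 1 ≤ ⌊h * (k : ℝ)⌋₊ := by
      apply Nat.le_floor
      push_cast
      exact hc
    have : ∀ i ∈ V, (if i.val < min (k + 1) ⌊h * (k : ℝ)⌋₊ then (1 : ℝ) / (k : ℝ) else 0) = 1 / (k : ℝ) := by
      intro i _
      rw [if_pos]
      rw [min_eq_left hfl]
      exact i.isLt
    rw [Finset.sum_congr rfl this, Finset.sum_const, hV, nsmul_eq_mul]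
    rw [mul_one_div_cancel hkr.ne']
  · push Not at hc
    refine ⟨1, one_pos, ?_⟩
    have hinj : Function.Injective (fun a : Fin (k + 1) => ({a} : Finset (Fin (k + 1)))ᶜ) := by
      intro a b hab
      exact Finset.singleton_injective (compl_injective hab)
    have hform : ∀ V : Finset (Fin (k + 1)), V.card = k → ∃ a, V = ({a} : Finset (Fin (k + 1)))ᶜ := by
      intro V hV
      have h1 : Vᶜ.card = 1 := by
        rw [Finset.card_compl, Fintype.card_fin, hV]
        omega
      obtain ⟨a, ha⟩ := Finset.card_eq_one.mp h1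
      exact ⟨a, by rw [← ha, compl_compl]⟩
    have hsum : ∀ a : Fin (k + 1), ∑ i ∈ ({a} : Finset (Fin (k + 1)))ᶜ, x i = h - x a := by
      intro a
      have := Fintype.sum_eq_add_sum_compl a x
      linarith
    obtain ⟨a0, ha0⟩ : ∃ a0 : Fin (k + 1), h - x a0 < 1 := by
      by_contra hcon
      push Not at hcon
      have h1 : ∑ _a : Fin (k + 1), (1 : ℝ) ≤ ∑ a : Fin (k + 1), (h - x a) :=
        Finset.sum_le_sum (fun a _ => hcon a)
      rw [Finset.sum_sub_distrib, hs] at h1
      simp only [Finset.sum_const, Finset.card_univ, Fintype.card_fin, nsmul_eq_mul] at h1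
      push_cast at h1
      nlinarith
    have hL : {V : Finset (Fin (k + 1)) | V.card = k ∧ (1 : ℝ) ≤ ∑ i ∈ V, x i} ⊆
        (((Finset.univ.erase a0).image (fun a : Fin (k + 1) => ({a} : Finset (Fin (k + 1)))ᶜ) :
          Finset (Finset (Fin (k + 1)))) : Set (Finset (Fin (k + 1)))) := by
      rintro V ⟨hV, hV2⟩
      obtain ⟨a, rfl⟩ := hform V hV
      rw [Finset.mem_coe, Finset.mem_image]
      refine ⟨a, ?_, rfl⟩
      rw [Finset.mem_erase]
      refine ⟨?_, Finset.mem_univ _⟩
      rintro rfl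
      rw [hsum] at hV2
      linarith
    have hR : (((Finset.univ.erase (0 : Fin (k + 1))).image
          (fun a : Fin (k + 1) => ({a} : Finset (Fin (k + 1)))ᶜ) :
          Finset (Finset (Fin (k + 1)))) : Set (Finset (Fin (k + 1)))) ⊆
        {V : Finset (Fin (k + 1)) | V.card = k ∧ (1 : ℝ) ≤ ∑ i ∈ V,
        (if i.val < min (k + 1) ⌊h * ((1 : ℕ) : ℝ)⌋₊ then (1 : ℝ) / ((1 : ℕ) : ℝ) else 0)} := by
      intro V hV
      rw [Finset.mem_coe, Finset.mem_image] at hV
      obtain ⟨a, ha, rfl⟩ := hV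
      rw [Finset.mem_erase] at ha
      refine ⟨?_, ?_⟩
      · show (({a} : Finset (Fin (k + 1)))ᶜ).card = k
        rw [Finset.card_compl, Fintype.card_fin, Finset.card_singleton]
        omega
      · have hfl : 1 ≤ ⌊h * ((1 : ℕ) : ℝ)⌋₊ := by
          rw [Nat.one_le_floor_iff]
          push_cast
          linarith
        have h0 : (0 : Fin (k + 1)) ∈ ({a} : Finset (Fin (k + 1)))ᶜ := by
          rw [Finset.mem_compl, Finset.mem_singleton]
          exact fun h => ha.1 h.symm
        have hnn : ∀ i ∈ ({a} : Finset (Fin (k + 1)))ᶜ, (0 : ℝ) ≤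
            (if i.val < min (k + 1) ⌊h * ((1 : ℕ) : ℝ)⌋₊ then (1 : ℝ) / ((1 : ℕ) : ℝ) else 0) := by
          intro i _
          split_ifs
          · norm_num
          · exact le_refl _
        refine le_trans ?_ (Finset.single_le_sum hnn h0)
        rw [if_pos]
        · norm_num
        · show ((0 : Fin (k + 1)) : ℕ) < min (k + 1) _
          rw [Fin.val_zero]
          exact lt_min (by omega) (by omega)
    have h1 := Set.ncard_le_ncard hL (Set.toFinite _)
    have h2 := Set.ncard_le_ncard hR (Set.toFinite _)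
    rw [Set.ncard_coe_finset, Finset.card_image_of_injective _ hinj,
      Finset.card_erase_of_mem (Finset.mem_univ _)] at h1 h2
    exact h1.trans h2

end Pool.Agent.KRPoison
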