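import Mathlib
import Pool.Agent.KRPoison.Konig

set_option autoImplicit false

namespace Pool.Agent.KRPoison

open Finset

theorem kr_pairs_ineq (n H s i z W : ℕ) (hHn : H < n) (hs : H = 2 * s ∨ H = 2 * s + 1)
    (hzi : z ≤ i) (hiz : i + z ≤ H) (hW : W ≤ i.choose 2 + z * max i (n - i)) :
    W ≤ H.choose 2 ∨ n.choose 2 ≥ W + (n - s).choose 2 := by
  have hc : ∀ k : ℕ, ((k.choose 2 : ℕ) : ℝ) = k * (k - 1) / 2 := fun k => Nat.cast_choose_two ℝ k
  have hiH : i ≤ H := by omega
  have hin : i ≤ n := by omega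
  have hsn : s ≤ n := by omega
  have hziR : (z : ℝ) ≤ i := by exact_mod_cast hzi
  have hizR : (i : ℝ) + z ≤ H := by exact_mod_cast hiz
  have hHnR : (H : ℝ) + 1 ≤ n := by exact_mod_cast hHn
  have hz0 : (0 : ℝ) ≤ z := Nat.cast_nonneg z
  have hi0 : (0 : ℝ) ≤ i := Nat.cast_nonneg i
  have hs0 : (0 : ℝ) ≤ s := Nat.cast_nonneg s
  rcases le_total (n - i) i with h1 | h1
  · left
    rw [max_eq_left h1] at hW
    obtain ⟨d, hd⟩ : ∃ d, H = i + d := ⟨H - i, by omega⟩
    have hzd : z ≤ d := by omega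
    have hzdR : (z : ℝ) ≤ d := by exact_mod_cast hzd
    have hWR : (W : ℝ) ≤ i * (i - 1) / 2 + z * i := by
      rw [← hc]
      exact_mod_cast hW
    have hdd : (0 : ℝ) ≤ (d : ℝ) * (d - 1) := by
      rcases Nat.eq_zero_or_pos d with h0 | h0
      · rw [h0]; simp
      · have : (1 : ℝ) ≤ d := by exact_mod_cast h0
        nlinarith
    have key : (W : ℝ) ≤ ((H.choose 2 : ℕ) : ℝ) := by
      rw [hc, hd]
      push_cast
      nlinarith [mul_le_mul_of_nonneg_right hzdR hi0]
    exact_mod_cast key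
  · rw [max_eq_right h1] at hW
    have hWR : (W : ℝ) ≤ i * (i - 1) / 2 + z * (n - i) := by
      rw [← hc, ← Nat.cast_sub hin]
      exact_mod_cast hW
    have hni0 : (0 : ℝ) ≤ (n : ℝ) - i := by
      have : (i : ℝ) ≤ n := by exact_mod_cast hin
      linarith
    have hsR : (H : ℝ) = 2 * s ∨ (H : ℝ) = 2 * s + 1 := by
      rcases hs with h | h
      · left; exact_mod_cast h
      · right; exact_mod_cast h
    rcases le_or_gt i s with h2 | h2
    · right
      have h2R : (i : ℝ) ≤ s := by exact_mod_cast h2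
      have hsnR : (s : ℝ) + 1 ≤ n := by
        have : s + 1 ≤ n := by omega
        exact_mod_cast this
      have key : (W : ℝ) + (((n - s).choose 2 : ℕ) : ℝ) ≤ ((n.choose 2 : ℕ) : ℝ) := by
        rw [hc, hc, Nat.cast_sub hsn]
        have h3 : (z : ℝ) * (n - i) ≤ i * (n - i) := mul_le_mul_of_nonneg_right hziR hni0
        nlinarith [mul_nonneg (sub_nonneg.mpr h2R) (show (0:ℝ) ≤ 2 * n - s - i - 1 by linarith)]
      exact_mod_cast key
    · have ht : (z : ℝ) ≤ H - i := by linarith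
      have h2R : (s : ℝ) + 1 ≤ i := by exact_mod_cast h2
      have h3 : (z : ℝ) * (n - i) ≤ (H - i) * (n - i) := mul_le_mul_of_nonneg_right ht hni0
      obtain ⟨t, htt⟩ : ∃ t : ℝ, t = H - i := ⟨_, rfl⟩
      have ht0 : 0 ≤ t := by rw [htt]; linarith
      have hts : t ≤ s := by
        rw [htt]
        rcases hsR with h | h <;> linarith
      have hiR : (i : ℝ) = H - t := by rw [htt]; ring
      have hWt : (W : ℝ) ≤ (H - t) * (H - t - 1) / 2 + t * (n - H + t) := by
        rw [hiR] at hWR h3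
        nlinarith
      rcases le_or_gt ((H : ℝ) * (H - 1) / 2) ((H - s) * (H - s - 1) / 2 + s * (n - H + s)) with h4 | h4
      · right
        have h5 : (H - t) * (H - t - 1) / 2 + t * (n - H + t) ≤
            ((H : ℝ) - s) * (H - s - 1) / 2 + s * (n - H + s) := by
          rcases eq_or_lt_of_le hs0 with h6 | h6
          · have : t = 0 := by linarith
            rw [this, ← h6]
          · have h7 : 0 ≤ (-(2 * (H:ℝ) - 1) / 2 + (n - H) + 3 / 2 * s) := by
              by_contra hcon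
              push Not at hcon
              nlinarith
            nlinarith [mul_nonneg (sub_nonneg.mpr hts) h7, mul_nonneg (sub_nonneg.mpr hts) ht0]
        have h6 : ((H : ℝ) - s) * (H - s - 1) / 2 + s * (n - H + s) +
            ((n:ℝ) - s) * (n - s - 1) / 2 = n * (n - 1) / 2 := by
          rcases hsR with h | h <;> rw [h] <;> ring
        have key : (W : ℝ) + (((n - s).choose 2 : ℕ) : ℝ) ≤ ((n.choose 2 : ℕ) : ℝ) := by
          rw [hc, hc, Nat.cast_sub hsn]
          linarith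
        exact_mod_cast key
      · left
        have h5 : (H - t) * (H - t - 1) / 2 + t * (n - H + t) ≤ (H : ℝ) * (H - 1) / 2 := by
          rcases eq_or_lt_of_le hs0 with h6 | h6
          · have : t = 0 := by linarith
            rw [this]
            linarith
          · have h7 : (-(2 * (H:ℝ) - 1) / 2 + (n - H) + 3 / 2 * s) ≤ 0 := by
              by_contra hcon
              push Not at hcon
              nlinarith
            nlinarith [mul_nonneg ht0 (sub_nonneg.mpr hts), mul_nonneg ht0 (neg_nonneg.mpr h7)]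
        have key : (W : ℝ) ≤ ((H.choose 2 : ℕ) : ℝ) := by
          rw [hc]
          linarith
        exact_mod_cast key

open Classical in
theorem kr_pairs_ncard (n : ℕ) (w : Fin n → ℝ) :
    Set.ncard {V : Finset (Fin n) | V.card = 2 ∧ (1 : ℝ) ≤ ∑ i ∈ V, w i} =
      (((univ : Finset (Fin n)).powersetCard 2).filter (fun V => (1 : ℝ) ≤ ∑ i ∈ V, w i)).card := by
  rw [← Set.ncard_coe_finset]
  congr 1
  ext V
  rw [mem_coe, mem_filter, mem_powersetCard]
  constructor
  · rintro ⟨h1, h2⟩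
    exact ⟨⟨subset_univ _, h1⟩, h2⟩
  · rintro ⟨⟨_, h1⟩, h2⟩
    exact ⟨h1, h2⟩

open Classical in
theorem kr_pairs_count (n : ℕ) (h : ℝ) (x : Fin n → ℝ)
    (hx : ∀ i, 0 ≤ x i) (hs : ∑ i, x i = h) : ∃ i z : ℕ, z ≤ i ∧ i + z ≤ ⌊h * ((2:ℕ) : ℝ)⌋₊ ∧
      (((univ : Finset (Fin n)).powersetCard 2).filter (fun V => (1 : ℝ) ≤ ∑ i ∈ V, x i)).card ≤
        i.choose 2 + z * max i (n - i) := by
  obtain ⟨A, hA⟩ : ∃ A : Finset (Fin n), A = univ.filter (fun v => 1 / 2 ≤ x v) := ⟨_, rfl⟩
  have memA : ∀ v, v ∈ A ↔ 1 / 2 ≤ x v := by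
    intro v
    rw [hA, mem_filter]
    simp
  obtain ⟨M, A', B', hA', hB', hM, hMinj, hMc, hcov⟩ := konig A Aᶜ (fun a b => 1 ≤ x a + x b)
  have inj1 : Set.InjOn Prod.fst (M : Set (Fin n × Fin n)) := by
    intro e he e' he' h
    by_contra hne
    exact (hMinj e he e' he' hne).1 h
  have inj2 : Set.InjOn Prod.snd (M : Set (Fin n × Fin n)) := by
    intro e he e' he' h
    by_contra hne
    exact (hMinj e he e' he' hne).2 h
  have c1 : (M.image Prod.fst).card = M.card := card_image_of_injOn inj1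
  have c2 : (M.image Prod.snd).card = M.card := card_image_of_injOn inj2
  have s1 : M.image Prod.fst ⊆ A := by
    intro x hx
    obtain ⟨e, he, rfl⟩ := mem_image.1 hx
    exact (hM e he).1
  have s2 : M.image Prod.snd ⊆ Aᶜ := by
    intro x hx
    obtain ⟨e, he, rfl⟩ := mem_image.1 hx
    exact (hM e he).2.1
  have hz1 : M.card ≤ A.card := c1 ▸ card_le_card s1
  have sumM : (M.card : ℝ) ≤ ∑ v ∈ M.image Prod.fst, x v + ∑ v ∈ M.image Prod.snd, x v := by
    rw [sum_image inj1, sum_image inj2, ← sum_add_distrib]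
    calc (M.card : ℝ) = ∑ e ∈ M, (1:ℝ) := by rw [sum_const, nsmul_eq_mul, mul_one]
      _ ≤ ∑ e ∈ M, (x e.1 + x e.2) := sum_le_sum fun e he => (hM e he).2.2
  have sumA : ((A.card:ℝ) - M.card) * (1 / 2) ≤ ∑ v ∈ A \ M.image Prod.fst, x v := by
    calc ((A.card:ℝ) - M.card) * (1 / 2) = ∑ v ∈ A \ M.image Prod.fst, (1 / 2 : ℝ) := by
          rw [sum_const, nsmul_eq_mul, card_sdiff_of_subset s1, c1, Nat.cast_sub hz1]
      _ ≤ ∑ v ∈ A \ M.image Prod.fst, x v := by
          refine sum_le_sum fun v hv => ?_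
          exact (memA v).mp (mem_sdiff.1 hv).1
  have sumB : 0 ≤ ∑ v ∈ Aᶜ \ M.image Prod.snd, x v := sum_nonneg fun v _ => hx v
  have tA : ∑ x' ∈ A \ M.image Prod.fst, x x' + ∑ x' ∈ M.image Prod.fst, x x' = ∑ x' ∈ A, x x' :=
    sum_sdiff s1
  have tB : ∑ x' ∈ Aᶜ \ M.image Prod.snd, x x' + ∑ x' ∈ M.image Prod.snd, x x' = ∑ x' ∈ Aᶜ, x x' :=
    sum_sdiff s2
  have tot : ∑ x' ∈ A, x x' + ∑ x' ∈ Aᶜ, x x' = h := by
    rw [sum_add_sum_compl, hs]
  refine ⟨A.card, M.card, hz1, ?_, ?_⟩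
  · apply Nat.le_floor
    push_cast
    linarith
  · have hAc : Aᶜ.card = n - A.card := by
      rw [card_compl, Fintype.card_fin]
    have hsub : (((univ : Finset (Fin n)).powersetCard 2).filter
        (fun V => (1 : ℝ) ≤ ∑ i ∈ V, x i)) ⊆ A.powersetCard 2 ∪
        ((A' ×ˢ Aᶜ).image (fun e : Fin n × Fin n => ({e.1, e.2} : Finset (Fin n))) ∪
        (B' ×ˢ A).image (fun e : Fin n × Fin n => ({e.2, e.1} : Finset (Fin n)))) := by
      intro V hV
      rw [mem_filter, mem_powersetCard] at hV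
      obtain ⟨⟨_, hV1⟩, hV2⟩ := hV
      obtain ⟨a, b, hab, rfl⟩ := card_eq_two.1 hV1
      rw [sum_pair hab] at hV2
      have hcross : ∀ a b : Fin n, a ∈ A → b ∉ A → 1 ≤ x a + x b → ({a, b} : Finset (Fin n)) ∈
          ((A' ×ˢ Aᶜ).image (fun e : Fin n × Fin n => ({e.1, e.2} : Finset (Fin n))) ∪
          (B' ×ˢ A).image (fun e : Fin n × Fin n => ({e.2, e.1} : Finset (Fin n)))) := by
        intro a b ha hb hlt
        rw [mem_union, mem_image, mem_image]
        rcases hcov a ha b (mem_compl.2 hb) hlt with h3 | h3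
        · left
          exact ⟨(a, b), mem_product.2 ⟨h3, mem_compl.2 hb⟩, rfl⟩
        · right
          exact ⟨(b, a), mem_product.2 ⟨h3, ha⟩, rfl⟩
      rw [mem_union]
      by_cases ha : a ∈ A
      · by_cases hb : b ∈ A
        · left
          rw [mem_powersetCard]
          refine ⟨?_, hV1⟩
          intro v hv
          rw [mem_insert, mem_singleton] at hv
          rcases hv with rfl | rfl
          · exact ha
          · exact hb
        · right
          exact hcross a b ha hb hV2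
      · by_cases hb : b ∈ A
        · right
          rw [pair_comm]
          exact hcross b a hb ha (by linarith)
        · exfalso
          rw [memA, not_le] at ha hb
          linarith
    refine (card_le_card hsub).trans ?_
    refine (card_union_le _ _).trans ?_
    rw [card_powersetCard]
    apply Nat.add_le_add_left
    refine (card_union_le _ _).trans ?_
    refine (Nat.add_le_add card_image_le card_image_le).trans ?_
    rw [card_product, card_product, hMc, hAc, add_mul]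
    exact Nat.add_le_add (Nat.mul_le_mul_left _ (le_max_right _ _))
      (Nat.mul_le_mul_left _ (le_max_left _ _))

/-- prove this one (`konig` may be used without proof). The case k = 2.
A = {x i ≥ 1/2}, i = |A|, B = complement, `konig` with r = (sum ≥ 1): M of size z = a + b. No pair inside
B is lethal. h ≥ z + (i-z)/2, so i + z ≤ H := ⌊2h⌋; z ≤ i, z ≤ n - i.
#lethal ≤ C(i,2) + a(n-i) + b i - a b = C(i,2) + a^2 + a(n-2i-z) + z i, convex in a ∈ [0,z], so
≤ C(i,2) + max (z i) (z (n-i)).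
If n ≤ H take j = 2: all pairs are lethal. Otherwise compare with j = 2: C(H,2) lethal pairs, and
j = 1: C(n,2) - C(n-s,2) = C(s,2) + s(n-s) with s = ⌊h⌋ = ⌊H/2⌋ (s < n).
z i: C(i,2) + i(H-i) ≤ C(H,2).
z (n-i): if i ≤ s then z ≤ i and C(i,2) + i(n-i) is increasing in i up to s; if i > s then z ≤ H - i and
C(i,2) + (H-i)(n-i) is convex in i on [H - s, H], value C(H,2) at i = H and C(s,2)+s(n-s) at i = H - s
(H - s = s or s + 1). -/
theorem kr_pairs (n : ℕ) (h : ℝ) (hh : 1 < h) (x : Fin n → ℝ)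
    (hx : ∀ i, 0 ≤ x i) (hs : ∑ i, x i = h) :
    ∃ j : ℕ, 0 < j ∧
      Set.ncard {V : Finset (Fin n) | V.card = 2 ∧ (1 : ℝ) ≤ ∑ i ∈ V, x i} ≤
      Set.ncard {V : Finset (Fin n) | V.card = 2 ∧ (1 : ℝ) ≤ ∑ i ∈ V,
        (if i.val < min n ⌊h * (j : ℝ)⌋₊ then (1 : ℝ) / (j : ℝ) else 0)} := by
  classical
  have hfull : ∀ (m : ℕ), m = min n ⌊h * ((2:ℕ) : ℝ)⌋₊ →
      m.choose 2 ≤ Set.ncard {V : Finset (Fin n) | V.card = 2 ∧ (1 : ℝ) ≤ ∑ i ∈ V,
        (if i.val < min n ⌊h * ((2:ℕ) : ℝ)⌋₊ then (1 : ℝ) / ((2:ℕ) : ℝ) else 0)} := by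
    intro m hm
    rw [kr_pairs_ncard, ← hm]
    have hmn : m ≤ n := by rw [hm]; exact min_le_left _ _
    have hcm : ((univ : Finset (Fin n)).filter (fun i => i.val < m)).card = m := by
      rw [Fin.card_filter_val_lt]
      omega
    rw [← hcm, ← card_powersetCard]
    apply card_le_card
    intro V hV
    rw [mem_powersetCard] at hV
    rw [mem_filter, mem_powersetCard]
    refine ⟨⟨subset_univ _, hV.2⟩, ?_⟩
    have h1 : ∑ i ∈ V, (if i.val < m then (1 : ℝ) / ((2:ℕ) : ℝ) else 0) =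
        ∑ i ∈ V, (1 : ℝ) / ((2:ℕ) : ℝ) := by
      apply sum_congr rfl
      intro i hi
      rw [if_pos (mem_filter.1 (hV.1 hi)).2]
    rw [hcm, h1, sum_const, hV.2, nsmul_eq_mul]
    norm_num
  by_cases hn : n ≤ ⌊h * ((2:ℕ) : ℝ)⌋₊
  · refine ⟨2, by norm_num, ?_⟩
    refine le_trans ?_ (hfull n (min_eq_left hn).symm)
    rw [kr_pairs_ncard]
    refine (card_filter_le _ _).trans ?_
    rw [card_powersetCard, card_univ, Fintype.card_fin]
  · push Not at hn
    obtain ⟨i, z, hzi, hiz, hcount⟩ := kr_pairs_count n h x hx hs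
    have hH : ⌊h * ((2:ℕ) : ℝ)⌋₊ = 2 * ⌊h⌋₊ ∨ ⌊h * ((2:ℕ) : ℝ)⌋₊ = 2 * ⌊h⌋₊ + 1 := by
      have h0 : 0 ≤ h := by linarith
      have h1 : (⌊h⌋₊ : ℝ) ≤ h := Nat.floor_le h0
      have h2 : h < ⌊h⌋₊ + 1 := Nat.lt_floor_add_one h
      have h3 : 2 * ⌊h⌋₊ ≤ ⌊h * ((2:ℕ) : ℝ)⌋₊ := by
        apply Nat.le_floor
        push_cast
        linarith
      have h4 : ⌊h * ((2:ℕ) : ℝ)⌋₊ < 2 * ⌊h⌋₊ + 2 := by
        rw [Nat.floor_lt (by positivity)]
        push_cast
        linarith
      omega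
    rcases kr_pairs_ineq n _ ⌊h⌋₊ i z _ hn hH hzi hiz hcount with h1 | h1
    · refine ⟨2, by norm_num, ?_⟩
      rw [kr_pairs_ncard]
      exact h1.trans (hfull _ (min_eq_right hn.le).symm)
    · refine ⟨1, one_pos, ?_⟩
      rw [kr_pairs_ncard, kr_pairs_ncard]
      have hsn : ⌊h⌋₊ ≤ n := by omega
      have hm : min n ⌊h * ((1:ℕ) : ℝ)⌋₊ = ⌊h⌋₊ := by
        rw [Nat.cast_one, mul_one]
        exact min_eq_right hsn
      rw [hm]
      have hc1 : ((univ : Finset (Fin n)).filter (fun i => ¬ i.val < ⌊h⌋₊)).card = n - ⌊h⌋₊ := by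
        have h2 := card_filter_add_card_filter_not (s := (univ : Finset (Fin n)))
          (fun i : Fin n => i.val < ⌊h⌋₊)
        rw [Fin.card_filter_val_lt, card_univ, Fintype.card_fin] at h2
        omega
      have hsub : (univ : Finset (Fin n)).powersetCard 2 ⊆
          (((univ : Finset (Fin n)).powersetCard 2).filter (fun V => (1 : ℝ) ≤ ∑ i ∈ V,
            (if i.val < ⌊h⌋₊ then (1 : ℝ) / ((1:ℕ) : ℝ) else 0))) ∪
          ((univ : Finset (Fin n)).filter (fun i => ¬ i.val < ⌊h⌋₊)).powersetCard 2 := by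
        intro V hV
        rw [mem_union]
        by_cases hex : ∃ i ∈ V, i.val < ⌊h⌋₊
        · left
          rw [mem_filter]
          refine ⟨hV, ?_⟩
          obtain ⟨i, hi, hlt⟩ := hex
          have h3 := single_le_sum (f := fun i : Fin n =>
            (if i.val < ⌊h⌋₊ then (1 : ℝ) / ((1:ℕ) : ℝ) else 0)) (fun i _ => by
              show (0:ℝ) ≤ (if i.val < ⌊h⌋₊ then (1 : ℝ) / ((1:ℕ) : ℝ) else 0)
              split_ifs
              · norm_num
              · exact le_refl _) hi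
          refine le_trans ?_ h3
          show (1:ℝ) ≤ (if i.val < ⌊h⌋₊ then (1 : ℝ) / ((1:ℕ) : ℝ) else 0)
          rw [if_pos hlt]
          norm_num
        · right
          push Not at hex
          rw [mem_powersetCard] at hV ⊢
          refine ⟨?_, hV.2⟩
          intro i hi
          rw [mem_filter]
          exact ⟨mem_univ _, not_lt.2 (hex i hi)⟩
      have h4 := (card_le_card hsub).trans (card_union_le _ _)
      rw [card_powersetCard, card_univ, Fintype.card_fin, card_powersetCard, hc1] at h4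
      omega

end Pool.Agent.KRPoison
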